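import Pool.Agent.R117.KR.Lines

/-!
# Halving lines of point sets with an affine symmetry of order `m`, up to `t` points

Definitions (in `Pool/Agent/R117/KR/Lines.lean`, namespace `Pool.Agent.R117.KR`):

* `Line a b c = {p | a * p.1 + b * p.2 = c}`,
* `IsBisector P L`: `L` is a line through two distinct points of `P` with exactly
  `|P| / 2 - 1` points of `P` on each open side,
* `IsKLine P k L`: `L` is a line through two distinct points of `P` such that one of its open sides
  contains exactly `k` points of `P`.

Proof idea.  Let `Q` be the set of the points of `R` other than the centre, in coordinates in which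
the symmetry is a rotation about `0`, let `q` be its size, and put
`F (d) = ∑ z ∈ Q, arccos (d / |z|) / π`, a decreasing function of `d`.  A closed or open half-plane
at signed distance `d` from the centre contains `F (d)` points of `Q` up to an error `q / m`: this
is true for every orbit up to one point.  So all lines which are counted have distances `d` with
`|F (d) - k| ≤ q / m + t`.  If `d₁ ≤ d₂` are the extreme distances, then for fixed points `x`, `y`
the number of the points `T^i y` which are on a line through `x` at distance between `d₁` and `d₂`
is at most `4 (m (δ_x + δ_y) / (2 π) + 1)`, where `δ_z = arccos (d₁ / |z|) - arccos (d₂ / |z|)`, and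
`∑ δ_z = π (F (d₁) - F (d₂)) ≤ 2 π (q / m + t)`.
-/

set_option autoImplicit false

namespace Pool.Agent.Results.MP_e17eac_co.AffineSymmetry

open Pool.Agent.R117.KR

open scoped Classical in
/-- Let `T p = o + e⁻¹ (ξ e (p - o))`, where `e` is a linear isomorphism of the plane to `ℂ` and `ξ`
a primitive `m`-th root of unity; this is an affine map of order `m`.  If the planar set `P`
differs in at most `t` points from a finite set `R` which is mapped into itself by `T`, then `P`
has at most `(7 (|P| + t)² + 5 m t (|P| + t)) / m` bisectors, and for every `k` at most so many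
lines pass through two points of `P` and have exactly `k` points of `P` on one of their sides. -/
theorem result (P R : Finset (ℝ × ℝ)) (m t : ℕ) (hm : 1 ≤ m) (ξ : ℂ) (hξ : IsPrimitiveRoot ξ m)
    (e : (ℝ × ℝ) ≃ₗ[ℝ] ℂ) (o : ℝ × ℝ) (hR : ∀ p ∈ R, o + e.symm (ξ * e (p - o)) ∈ R)
    (ht : (P \ R).card + (R \ P).card ≤ t) :
    m * {L | IsBisector P L}.ncard ≤ 7 * (P.card + t) ^ 2 + 5 * (m * t * (P.card + t)) ∧
      ∀ k : ℕ,
        m * {L | IsKLine P k L}.ncard ≤ 7 * (P.card + t) ^ 2 + 5 * (m * t * (P.card + t)) :=
  ⟨bisector_bound hm hξ hR ht, fun k => kline_bound hm hξ hR ht k⟩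

end Pool.Agent.Results.MP_e17eac_co.AffineSymmetry
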