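import Pool.Agent.R943.HL.Add

/-!
# Adding few points makes the number of halving lines small

Definitions (in `Pool/Agent/W296/HL3.lean`, namespace `Pool.Agent.W296.HL`):

* `Line a b c = {p | a * p.1 + b * p.2 = c}`,
* `GeneralPosition P`: no three distinct points of `P` on a common line,
* `IsBisector P L`: `L` is a line through two distinct points of `P` with exactly
  `|P| / 2 - 1` points of `P` on each open side.
-/

set_option autoImplicit false

open Finset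

namespace Pool.Agent.Results.MP_e17eac_co.FewAdditions

open Pool.Agent.W296.HL Pool.Agent.R943.HL

theorem first (P : Finset (ℝ × ℝ)) (hP : GeneralPosition P) (hE : Even #P) (m : ℕ) (hm : 1 ≤ m)
    (hmP : m ≤ #P) :
    ∃ U : Finset (ℝ × ℝ), P ⊆ U ∧ GeneralPosition U ∧ Even #U ∧ #U + 2 ≤ #P + 2 * m ∧
      ({L | IsBisector U L}.ncard : ℝ) ≤ 33 * #P * (#P / m) ^ (1 / 3 : ℝ) := by
  obtain ⟨U, h1, h2, ⟨i, hi, h3⟩, h4⟩ := add_points (gen_of_gp hP) hm hmP
  refine ⟨U, h1, gp_of_gen h2, ?_, by omega, h4⟩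
  rw [h3]
  exact hE.add (even_two_mul i)

theorem second (P : Finset (ℝ × ℝ)) (hP : GeneralPosition P) (hE : Even #P) (δ : ℝ) (hδ0 : 0 < δ)
    (hδ1 : δ ≤ 1) :
    ∃ U : Finset (ℝ × ℝ), P ⊆ U ∧ GeneralPosition U ∧ Even #U ∧ (#U : ℝ) ≤ (1 + δ) * #P ∧
      ({L | IsBisector U L}.ncard : ℝ) ≤ 42 * (1 / δ) ^ (1 / 3 : ℝ) * #P := by
  obtain ⟨n, hn⟩ : ∃ n, n = #P := ⟨_, rfl⟩
  rcases Nat.eq_zero_or_pos n with h0 | h0
  · have : P = ∅ := card_eq_zero.mp (hn ▸ h0)
    subst this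
    refine ⟨∅, subset_refl _, hP, hE, by simp, ?_⟩
    have h3 : {L | IsBisector (∅ : Finset (ℝ × ℝ)) L} = ∅ := by
      ext L
      simp only [Set.mem_ofPred_eq, Set.mem_empty_iff_false, iff_false]
      rintro ⟨a, b, c, -, -, ⟨p, hp, -⟩, -⟩
      exact Finset.notMem_empty p hp
    rw [h3, Set.ncard_empty]
    simp
  · have hn0 : (0 : ℝ) < n := by exact_mod_cast h0
    obtain ⟨m, hm⟩ : ∃ m, m = ⌈δ * n / 2⌉₊ := ⟨_, rfl⟩
    have hpos : 0 < δ * n / 2 := by positivity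
    have hm1 : 1 ≤ m := by
      rw [hm]
      exact Nat.ceil_pos.mpr hpos
    have hm0 : (0 : ℝ) < m := by exact_mod_cast hm1
    have hmn : m ≤ n := by
      rw [hm]
      apply Nat.ceil_le.mpr
      nlinarith
    have hmlow : δ * n / 2 ≤ m := by
      rw [hm]
      exact Nat.le_ceil _
    have hmup : (m : ℝ) < δ * n / 2 + 1 := by
      rw [hm]
      exact Nat.ceil_lt_add_one hpos.le
    obtain ⟨U, h1, h2, h3, h4, h5⟩ := first P hP hE m hm1 (hn ▸ hmn)
    refine ⟨U, h1, h2, h3, ?_, h5.trans ?_⟩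
    · have h6 : ((#U : ℕ) : ℝ) + 2 ≤ #P + 2 * m := by exact_mod_cast h4
      rw [← hn] at h6 ⊢
      linarith
    · rw [← hn]
      have h6 : ((n : ℝ) / m) ≤ 2 * (1 / δ) := by
        rw [div_le_iff₀ hm0]
        have : 2 * (1 / δ) * (δ * n / 2) = n := by field_simp
        calc (n : ℝ) = 2 * (1 / δ) * (δ * n / 2) := this.symm
          _ ≤ 2 * (1 / δ) * m := mul_le_mul_of_nonneg_left hmlow (by positivity)
      have h7 : ((n : ℝ) / m) ^ (1 / 3 : ℝ) ≤ 14 / 11 * (1 / δ) ^ (1 / 3 : ℝ) := by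
        calc ((n : ℝ) / m) ^ (1 / 3 : ℝ) ≤ (2 * (1 / δ)) ^ (1 / 3 : ℝ) :=
              Real.rpow_le_rpow (by positivity) h6 (by norm_num)
          _ = 2 ^ (1 / 3 : ℝ) * (1 / δ) ^ (1 / 3 : ℝ) :=
              Real.mul_rpow (by norm_num) (by positivity)
          _ ≤ _ := by
              apply mul_le_mul_of_nonneg_right _ (by positivity)
              calc (2 : ℝ) ^ (1 / 3 : ℝ) ≤ ((14 / 11 : ℝ) ^ (3 : ℕ)) ^ (1 / 3 : ℝ) :=
                    Real.rpow_le_rpow (by norm_num) (by norm_num) (by norm_num)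
                _ = 14 / 11 := by
                    rw [← Real.rpow_natCast, ← Real.rpow_mul (by norm_num)]
                    norm_num
      calc 33 * (n : ℝ) * ((n : ℝ) / m) ^ (1 / 3 : ℝ) ≤
            33 * n * (14 / 11 * (1 / δ) ^ (1 / 3 : ℝ)) :=
            mul_le_mul_of_nonneg_left h7 (by positivity)
        _ = _ := by ring

/-- Let `P` be a set of `n` points of the plane in general position, `n` even.
1. For every `1 ≤ m ≤ n` there is a set `U ⊇ P` in general position, of even size at most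
`n + 2 m - 2`, with at most `33 n (n / m) ^ (1 / 3)` bisectors.
2. For every `0 < δ ≤ 1` there is a set `U ⊇ P` in general position, of even size at most
`(1 + δ) n`, with at most `42 δ ^ (-1 / 3) n` bisectors. -/
theorem result :
    (∀ P : Finset (ℝ × ℝ), GeneralPosition P → Even #P → ∀ m : ℕ, 1 ≤ m → m ≤ #P →
      ∃ U : Finset (ℝ × ℝ), P ⊆ U ∧ GeneralPosition U ∧ Even #U ∧ #U + 2 ≤ #P + 2 * m ∧
        ({L | IsBisector U L}.ncard : ℝ) ≤ 33 * #P * (#P / m) ^ (1 / 3 : ℝ)) ∧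
    (∀ P : Finset (ℝ × ℝ), GeneralPosition P → Even #P → ∀ δ : ℝ, 0 < δ → δ ≤ 1 →
      ∃ U : Finset (ℝ × ℝ), P ⊆ U ∧ GeneralPosition U ∧ Even #U ∧ (#U : ℝ) ≤ (1 + δ) * #P ∧
        ({L | IsBisector U L}.ncard : ℝ) ≤ 42 * (1 / δ) ^ (1 / 3 : ℝ) * #P) :=
  ⟨first, second⟩

end Pool.Agent.Results.MP_e17eac_co.FewAdditions
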