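import Pool.Agent.R943.HL.Del

/-!
# Halving lines of random subsets

Definitions (in `Pool/Agent/W296/HL3.lean`, namespace `Pool.Agent.W296.HL`):

* `Line a b c = {p | a * p.1 + b * p.2 = c}`,
* `GeneralPosition P`: no three distinct points of `P` on a common line,
* `IsBisector P L`: `L` is a line through two distinct points of `P` with exactly
  `|P| / 2 - 1` points of `P` on each open side.
-/

set_option autoImplicit false

open Finset

namespace Pool.Agent.Results.MP_e17eac_co.RandomSubsets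

open Pool.Agent.W296.HL Pool.Agent.R943.HL

/-- the number of bisectors -/
noncomputable def bis (R : Finset (ℝ × ℝ)) : ℕ := {L | IsBisector R L}.ncard

theorem bis_empty : bis ∅ = 0 := by
  unfold bis
  have : {L | IsBisector ∅ L} = ∅ := by
    ext L
    simp only [Set.mem_ofPred_eq, Set.mem_empty_iff_false, iff_false]
    rintro ⟨a, b, c, -, -, ⟨p, hp, -⟩, -⟩
    exact Finset.notMem_empty p hp
  rw [this, Set.ncard_empty]

theorem random (P : Finset (ℝ × ℝ)) (hP : GeneralPosition P) (s : ℝ) (hs0 : 0 < s) (hs1 : s < 1) :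
    ∑ R ∈ P.powerset, s ^ #R * (1 - s) ^ (#P - #R) * (bis R : ℝ) ≤
      135 * (s * #P) * (s * #P / (1 - s)) ^ (1 / 6 : ℝ) :=
  expected (gen_of_gp hP) hs0 hs1

theorem average (P : Finset (ℝ × ℝ)) (hP : GeneralPosition P) :
    ∑ R ∈ P.powerset, (bis R : ℝ) ≤ 2 ^ #P * (68 * (#P : ℝ) ^ (7 / 6 : ℝ)) := by
  have h := random P hP (1 / 2) (by norm_num) (by norm_num)
  have e : ∀ R ∈ P.powerset, ((1 / 2 : ℝ)) ^ #R * (1 - 1 / 2) ^ (#P - #R) * (bis R : ℝ) =
      (1 / 2 : ℝ) ^ #P * (bis R : ℝ) := by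
    intro R hR
    have hc := card_le_card (mem_powerset.mp hR)
    rw [show (1 : ℝ) - 1 / 2 = 1 / 2 by norm_num, ← pow_add, show #R + (#P - #R) = #P by omega]
  rw [sum_congr rfl e, ← mul_sum] at h
  have h2 : (1 / 2 * (#P : ℝ) / (1 - 1 / 2)) = #P := by ring
  rw [h2] at h
  rcases Nat.eq_zero_or_pos #P with h0 | h0
  · have : P = ∅ := card_eq_zero.mp h0
    subst this
    simp at h ⊢
    exact h
  · have hn0 : (0 : ℝ) < #P := by exact_mod_cast h0
    have h3 : (#P : ℝ) ^ (7 / 6 : ℝ) = #P * (#P : ℝ) ^ (1 / 6 : ℝ) := by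
      rw [show (7 / 6 : ℝ) = 1 + 1 / 6 by norm_num, Real.rpow_add hn0, Real.rpow_one]
    have h4 : (0 : ℝ) < 2 ^ #P := by positivity
    have h5 : ∑ R ∈ P.powerset, (bis R : ℝ) =
        2 ^ #P * ((1 / 2 : ℝ) ^ #P * ∑ R ∈ P.powerset, (bis R : ℝ)) := by
      rw [← mul_assoc, ← mul_pow, show (2 : ℝ) * (1 / 2) = 1 by norm_num, one_pow, one_mul]
    rw [h5, h3]
    apply mul_le_mul_of_nonneg_left _ h4.le
    refine h.trans ?_
    have h6 : (0 : ℝ) ≤ #P * (#P : ℝ) ^ (1 / 6 : ℝ) := mul_nonneg hn0.le (Real.rpow_nonneg hn0.le _)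
    calc 135 * (1 / 2 * (#P : ℝ)) * (#P : ℝ) ^ (1 / 6 : ℝ) =
          67.5 * (#P * (#P : ℝ) ^ (1 / 6 : ℝ)) := by ring
      _ ≤ 68 * (#P * (#P : ℝ) ^ (1 / 6 : ℝ)) := by linarith

theorem most (P : Finset (ℝ × ℝ)) (hP : GeneralPosition P) (t : ℝ) (ht : 0 < t) :
    t * (#{R ∈ P.powerset | t * (#P : ℝ) ^ (7 / 6 : ℝ) < bis R} : ℝ) ≤ 68 * 2 ^ #P := by
  rcases Nat.eq_zero_or_pos #P with h0 | h0
  · have : P = ∅ := card_eq_zero.mp h0
    subst this
    have hb : bis ∅ = 0 := bis_empty
    have he : ∀ R ∈ (∅ : Finset (ℝ × ℝ)).powerset,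
        ¬ (t * ((#(∅ : Finset (ℝ × ℝ)) : ℕ) : ℝ) ^ (7 / 6 : ℝ) < bis R) := by
      intro R hR
      rw [powerset_empty, mem_singleton] at hR
      subst hR
      rw [hb, Nat.cast_zero, not_lt]
      positivity
    rw [filter_false_of_mem he, card_empty, Nat.cast_zero, mul_zero]
    positivity
  · have hn0 : (0 : ℝ) < #P := by exact_mod_cast h0
    have hp : (0 : ℝ) < (#P : ℝ) ^ (7 / 6 : ℝ) := by positivity
    have h1 : (#{R ∈ P.powerset | t * (#P : ℝ) ^ (7 / 6 : ℝ) < bis R} : ℝ) *
        (t * (#P : ℝ) ^ (7 / 6 : ℝ)) ≤ ∑ R ∈ P.powerset, (bis R : ℝ) := by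
      calc _ = ∑ R ∈ P.powerset with t * (#P : ℝ) ^ (7 / 6 : ℝ) < bis R,
            (t * (#P : ℝ) ^ (7 / 6 : ℝ)) := by rw [sum_const, nsmul_eq_mul]
        _ ≤ ∑ R ∈ P.powerset with t * (#P : ℝ) ^ (7 / 6 : ℝ) < bis R, (bis R : ℝ) :=
            sum_le_sum (fun R hR => (mem_filter.mp hR).2.le)
        _ ≤ _ := sum_le_sum_of_subset_of_nonneg (filter_subset _ _)
            (fun _ _ _ => Nat.cast_nonneg _)
    have h2 := h1.trans (average P hP)
    have h3 : (t * (#{R ∈ P.powerset | t * (#P : ℝ) ^ (7 / 6 : ℝ) < bis R} : ℝ)) *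
        (#P : ℝ) ^ (7 / 6 : ℝ) ≤ (68 * 2 ^ #P) * (#P : ℝ) ^ (7 / 6 : ℝ) := by linarith
    exact le_of_mul_le_mul_right h3 hp

theorem large_subset (P : Finset (ℝ × ℝ)) (hP : GeneralPosition P) (hE : Even #P) (δ : ℝ)
    (hδ0 : 0 < δ) (hδ1 : δ ≤ 1) :
    ∃ R ⊆ P, Even #R ∧ (1 - δ) * #P ≤ #R ∧
      (bis R : ℝ) ≤ 700 * #P * (#P / δ) ^ (1 / 6 : ℝ) := by
  classical
  rcases Nat.eq_zero_or_pos #P with h0 | h0
  · have : P = ∅ := card_eq_zero.mp h0
    subst this
    have hb : bis ∅ = 0 := bis_empty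
    exact ⟨∅, subset_refl _, by simp, by simp, by rw [hb]; simp⟩
  set n := #P with hn
  have hn0 : (0 : ℝ) < n := by exact_mod_cast h0
  set r : ℝ := δ / 4 with hr
  have hr0 : 0 < r := by positivity
  have hr1 : r ≤ 1 / 4 := by rw [hr]; linarith
  have hs1 : 1 - r < 1 := by linarith
  have hs0 : 0 < 1 - r := by linarith
  have hmain := random P hP (1 - r) hs0 hs1
  rw [← hn, show (1 : ℝ) - (1 - r) = r by ring] at hmain
  set w : Finset (ℝ × ℝ) → ℝ := fun R => (1 - r) ^ #R * r ^ (n - #R) with hw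
  have hw0 : ∀ R, 0 ≤ w R := fun R => by rw [hw]; positivity
  -- total mass, signed mass and mean
  have htot : ∑ R ∈ P.powerset, w R = 1 := by
    rw [hw]
    simp only
    rw [hn, sum_pow_mul_eq_add_pow]
    rw [show (1 : ℝ) - r + r = 1 by ring, one_pow]
  have hsign : 0 ≤ ∑ R ∈ P.powerset, (-1 : ℝ) ^ #R * w R := by
    have e : ∀ R ∈ P.powerset, (-1 : ℝ) ^ #R * w R = (-(1 - r)) ^ #R * r ^ (n - #R) := by
      intro R _
      rw [hw]
      simp only
      rw [neg_pow (1 - r)]
      ring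
    rw [sum_congr rfl e, hn, sum_pow_mul_eq_add_pow]
    exact hE.pow_nonneg _
  have heven : 1 / 2 ≤ ∑ R ∈ P.powerset with Even #R, w R := by
    have h1 : ∑ R ∈ P.powerset, w R = ∑ R ∈ P.powerset with Even #R, w R +
        ∑ R ∈ P.powerset with ¬ Even #R, w R := (sum_filter_add_sum_filter_not _ _ _).symm
    have h2 : ∑ R ∈ P.powerset, (-1 : ℝ) ^ #R * w R = ∑ R ∈ P.powerset with Even #R, w R -
        ∑ R ∈ P.powerset with ¬ Even #R, w R := by
      rw [← sum_filter_add_sum_filter_not P.powerset (fun R => Even #R), sub_eq_add_neg,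
        ← sum_neg_distrib]
      congr 1
      · apply sum_congr rfl
        intro R hR
        rw [(mem_filter.mp hR).2.neg_one_pow, one_mul]
      · apply sum_congr rfl
        intro R hR
        rw [(Nat.not_even_iff_odd.mp (mem_filter.mp hR).2).neg_one_pow, neg_one_mul]
    linarith
  have hmean : ∑ R ∈ P.powerset, w R * (n - #R : ℝ) = r * n := by
    have h1 : ∀ p ∈ P, ∑ R ∈ P.powerset, w R * (if p ∈ R then 0 else 1) = r := by
      intro p hp
      have h2 : ∑ R ∈ P.powerset, w R * (if p ∈ R then 0 else 1) =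
          ∑ R ∈ (P.erase p).powerset, w R := by
        symm
        apply sum_subset_zero_on_sdiff (powerset_mono.mpr (erase_subset _ _))
        · intro R hR
          rw [mem_sdiff, mem_powerset, mem_powerset, subset_erase] at hR
          have : p ∈ R := by
            by_contra h
            exact hR.2 ⟨hR.1, h⟩
          rw [if_pos this, mul_zero]
        · intro R hR
          rw [mem_powerset, subset_erase] at hR
          rw [if_neg hR.2, mul_one]
      rw [h2]
      have h3 : ∀ R ∈ (P.erase p).powerset, w R =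
          r * ((1 - r) ^ #R * r ^ (#(P.erase p) - #R)) := by
        intro R hR
        have hc := card_le_card (mem_powerset.mp hR)
        have hp' := card_erase_of_mem hp
        rw [hw]
        simp only
        have : n - #R = (#(P.erase p) - #R) + 1 := by omega
        rw [this, pow_succ]
        ring
      rw [sum_congr rfl h3, ← mul_sum, sum_pow_mul_eq_add_pow]
      rw [show (1 : ℝ) - r + r = 1 by ring, one_pow, mul_one]
    have h4 : ∀ R ∈ P.powerset, w R * (n - #R : ℝ) =
        ∑ p ∈ P, w R * (if p ∈ R then 0 else 1) := by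
      intro R hR
      rw [← mul_sum]
      congr 1
      have h5 : ∑ p ∈ P, (if p ∈ R then (0 : ℝ) else 1) = #{p ∈ P | p ∉ R} := by
        rw [card_filter]
        push_cast
        apply sum_congr rfl
        intro p _
        by_cases h : p ∈ R <;> simp [h]
      rw [h5]
      have h6 : #{p ∈ P | p ∉ R} = #P - #R := by
        rw [← card_sdiff_of_subset (mem_powerset.mp hR)]
        congr 1
        ext p
        simp
      rw [h6, Nat.cast_sub (card_le_card (mem_powerset.mp hR))]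
    rw [sum_congr rfl h4, sum_comm, sum_congr rfl h1, sum_const, nsmul_eq_mul, mul_comm, ← hn]
  -- few points are deleted
  have hfew : ∑ R ∈ P.powerset with δ * n < n - #R, w R ≤ 1 / 4 := by
    have h1 : (δ * n) * ∑ R ∈ P.powerset with δ * n < n - #R, w R ≤ r * n := by
      rw [← hmean, mul_sum]
      calc _ ≤ ∑ R ∈ P.powerset with δ * n < n - #R, w R * (n - #R : ℝ) := by
            apply sum_le_sum
            intro R hR
            have := (mem_filter.mp hR).2
            have := hw0 R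
            nlinarith
        _ ≤ _ := by
            apply sum_le_sum_of_subset_of_nonneg (filter_subset _ _)
            intro R hR _
            have hc : (#R : ℝ) ≤ n := by exact_mod_cast card_le_card (mem_powerset.mp hR)
            exact mul_nonneg (hw0 R) (by linarith)
    have hpos : 0 < δ * n := by positivity
    have h2 : (δ * n) * ∑ R ∈ P.powerset with δ * n < n - #R, w R ≤ (δ * n) * (1 / 4) := by
      refine h1.trans (le_of_eq ?_)
      rw [hr]; ring
    exact le_of_mul_le_mul_left h2 hpos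
  by_contra hcon
  push Not at hcon
  set B : ℝ := 700 * n * (n / δ) ^ (1 / 6 : ℝ) with hB
  have hB0 : 0 < B := by positivity
  -- the good sets have mass at least 1/4
  have hgood : 1 / 4 ≤ ∑ R ∈ P.powerset with Even #R ∧ (n - #R : ℝ) ≤ δ * n, w R := by
    have h1 : ∑ R ∈ P.powerset with Even #R, w R ≤
        ∑ R ∈ P.powerset with Even #R ∧ (n - #R : ℝ) ≤ δ * n, w R +
          ∑ R ∈ P.powerset with δ * n < n - #R, w R := by
      rw [sum_filter, sum_filter, sum_filter, ← sum_add_distrib]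
      apply sum_le_sum
      intro R _
      have := hw0 R
      by_cases h2 : Even #R
      · by_cases h3 : (n - #R : ℝ) ≤ δ * n
        · rw [if_pos h2, if_pos ⟨h2, h3⟩]
          split_ifs <;> linarith
        · rw [if_pos h2, if_neg (fun h => h3 h.2), if_pos (not_le.mp h3)]
          linarith
      · rw [if_neg h2, if_neg (fun h => h2 h.1)]
        split_ifs <;> linarith
    linarith
  have h2 : B * (1 / 4) ≤ ∑ R ∈ P.powerset, w R * (bis R : ℝ) := by
    calc B * (1 / 4) ≤ B * ∑ R ∈ P.powerset with Even #R ∧ (n - #R : ℝ) ≤ δ * n, w R :=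
          mul_le_mul_of_nonneg_left hgood hB0.le
      _ ≤ ∑ R ∈ P.powerset with Even #R ∧ (n - #R : ℝ) ≤ δ * n, w R * (bis R : ℝ) := by
          rw [mul_sum]
          apply sum_le_sum
          intro R hR
          rw [mem_filter, mem_powerset] at hR
          have := hcon R hR.1 hR.2.1 (by linarith [hR.2.2])
          have := hw0 R
          nlinarith
      _ ≤ _ := sum_le_sum_of_subset_of_nonneg (filter_subset _ _)
          (fun R _ _ => mul_nonneg (hw0 R) (Nat.cast_nonneg _))
  have h3 : 135 * ((1 - r) * n) * ((1 - r) * n / r) ^ (1 / 6 : ℝ) < B * (1 / 4) := by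
    have h4 : ((1 - r) * n / r) ^ (1 / 6 : ℝ) ≤ (4 * (n / δ)) ^ (1 / 6 : ℝ) := by
      apply Real.rpow_le_rpow (by positivity) _ (by norm_num)
      have : 4 * ((n : ℝ) / δ) = n / r := by rw [hr]; field_simp
      rw [this]
      apply div_le_div_of_nonneg_right _ hr0.le
      nlinarith
    have h5 : (4 * (n / δ)) ^ (1 / 6 : ℝ) ≤ 1.28 * (n / δ) ^ (1 / 6 : ℝ) := by
      rw [Real.mul_rpow (by norm_num) (by positivity)]
      apply mul_le_mul_of_nonneg_right _ (by positivity)
      calc (4 : ℝ) ^ (1 / 6 : ℝ) ≤ ((1.28 : ℝ) ^ (6 : ℕ)) ^ (1 / 6 : ℝ) :=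
            Real.rpow_le_rpow (by norm_num) (by norm_num) (by norm_num)
        _ = 1.28 := by
            rw [← Real.rpow_natCast, ← Real.rpow_mul (by norm_num)]
            norm_num
    have h6 : (0 : ℝ) < (n / δ) ^ (1 / 6 : ℝ) := by positivity
    calc 135 * ((1 - r) * n) * ((1 - r) * n / r) ^ (1 / 6 : ℝ) ≤
          135 * (1 * n) * (1.28 * (n / δ) ^ (1 / 6 : ℝ)) := by
          apply mul_le_mul _ (h4.trans h5) (by positivity) (by positivity)
          nlinarith
      _ < B * (1 / 4) := by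
          rw [hB]
          have : 0 < (n : ℝ) * (n / δ) ^ (1 / 6 : ℝ) := by positivity
          nlinarith
  linarith

/-- Let `P` be a set of `n` points of the plane in general position.
1. If every point survives independently with probability `s`, then the surviving set has in the
mean at most `135 s n (s n / (1 - s)) ^ (1 / 6)` bisectors.
2. Over all `2 ^ n` subsets of `P` the mean number of bisectors is at most `68 n ^ (7 / 6)`.
3. At most `(68 / t) 2 ^ n` subsets of `P` have more than `t n ^ (7 / 6)` bisectors.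
4. If `n` is even, `P` has for every `0 < δ ≤ 1` an even subset of at least `(1 - δ) n` points with
at most `700 n (n / δ) ^ (1 / 6)` bisectors. -/
theorem result :
    (∀ P : Finset (ℝ × ℝ), GeneralPosition P → ∀ s : ℝ, 0 < s → s < 1 →
      ∑ R ∈ P.powerset, s ^ #R * (1 - s) ^ (#P - #R) * (bis R : ℝ) ≤
        135 * (s * #P) * (s * #P / (1 - s)) ^ (1 / 6 : ℝ)) ∧
    (∀ P : Finset (ℝ × ℝ), GeneralPosition P →
      ∑ R ∈ P.powerset, (bis R : ℝ) ≤ 2 ^ #P * (68 * (#P : ℝ) ^ (7 / 6 : ℝ))) ∧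
    (∀ P : Finset (ℝ × ℝ), GeneralPosition P → ∀ t : ℝ, 0 < t →
      t * (#{R ∈ P.powerset | t * (#P : ℝ) ^ (7 / 6 : ℝ) < bis R} : ℝ) ≤ 68 * 2 ^ #P) ∧
    (∀ P : Finset (ℝ × ℝ), GeneralPosition P → Even #P → ∀ δ : ℝ, 0 < δ → δ ≤ 1 →
      ∃ R ⊆ P, Even #R ∧ (1 - δ) * #P ≤ #R ∧
        (bis R : ℝ) ≤ 700 * #P * (#P / δ) ^ (1 / 6 : ℝ)) :=
  ⟨random, average, most, large_subset⟩

end Pool.Agent.Results.MP_e17eac_co.RandomSubsets
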