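import Pool.Agent.Results.MP_a08d0a_co.SmoothedLevel
import Pool.Agent.Y429.HalvFew

/-!
# Smoothed number of halving lines

Definitions (in `Pool/Agent/W296/HL3.lean`, namespace `Pool.Agent.W296.HL`):

* `Line a b c = {p | a * p.1 + b * p.2 = c}`,
* `GeneralPosition P`: no three distinct points of `P` on a common line,
* `IsBisector P L`: `L` is a line through two distinct points of `P` with exactly
  `|P| / 2 - 1` points of `P` on each open side.
-/

set_option autoImplicit false

open Finset MeasureTheory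
open scoped ENNReal

namespace Pool.Agent.Results.MP_e17eac_co.SmoothedPoints

open Pool.Agent.W296.HL (GeneralPosition IsBisector Line hv_of_line bis_finite)
open Pool.Agent.Results.MP_a08d0a_co.SmoothedLevel (Simple crossings measurable_crossings)
open Pool.Agent.H189R2.Lev (ht)

/-- the point set with the abscissae `a i` and the ordinates `y i` -/
noncomputable def pts {n : ℕ} (a y : Fin n → ℝ) : Finset (ℝ × ℝ) := by
  classical exact univ.image (fun i => (a i, y i))

theorem mem_pts {n : ℕ} {a y : Fin n → ℝ} {p : ℝ × ℝ} :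
    p ∈ pts a y ↔ ∃ i, (a i, y i) = p := by
  classical
  unfold pts
  simp

theorem below_iff {n : ℕ} {a y : Fin n → ℝ} {i j : Fin n} (h : a j < a i) (l : Fin n) :
    ht a y l (Pool.Agent.H189R2.Lev.cr a y i j) < ht a y i (Pool.Agent.H189R2.Lev.cr a y i j) ↔
      Pool.Agent.W296.HL.cr (a j, y j) (a i, y i) (a l, y l) < 0 := by
  unfold ht Pool.Agent.H189R2.Lev.cr Pool.Agent.W296.HL.cr
  simp only
  have hpos : 0 < a i - a j := by linarith
  set x := (y j - y i) / (a i - a j) with hx
  have hx2 : x * (a i - a j) = y j - y i := by rw [hx]; field_simp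
  have key : (a i - a j) * ((a l * x + y l) - (a i * x + y i)) =
      (a i - a j) * (y l - y j) - (y i - y j) * (a l - a j) := by
    linear_combination (a l - a i) * hx2
  constructor
  · intro h
    rw [← key]
    exact mul_neg_of_pos_of_neg hpos (by linarith)
  · intro h
    rw [← key] at h
    by_contra hcon
    have : 0 ≤ (a i - a j) * ((a l * x + y l) - (a i * x + y i)) :=
      mul_nonneg hpos.le (by linarith)
    linarith

theorem card_pts {n : ℕ} {a : Fin n → ℝ} (ha : Function.Injective a) (y : Fin n → ℝ) :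
    #(pts a y) = n := by
  classical
  unfold pts
  rw [card_image_of_injective, card_univ, Fintype.card_fin]
  intro i j h
  exact ha (Prod.mk.inj h).1

theorem gp_pts {n : ℕ} {a y : Fin n → ℝ} (ha : Function.Injective a) (hS : Simple a y) :
    GeneralPosition (pts a y) := by
  intro α β c hab p hp q hq r hr hpq hpr hqr ⟨h1, h2, h3⟩
  rw [mem_pts] at hp hq hr
  obtain ⟨i, rfl⟩ := hp
  obtain ⟨j, rfl⟩ := hq
  obtain ⟨l, rfl⟩ := hr
  have hij : i ≠ j := fun h => hpq (by rw [h])
  have hil : i ≠ l := fun h => hpr (by rw [h])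
  have hjl : j ≠ l := fun h => hqr (by rw [h])
  simp only [Line, Set.mem_ofPred_eq] at h1 h2 h3
  have hβ : β ≠ 0 := by
    intro h0
    have hα : α ≠ 0 := hab.resolve_right (fun h => h h0)
    rw [h0] at h1 h2
    have : α * (a i - a j) = 0 := by linarith
    have h4 := (mul_eq_zero.mp this).resolve_left hα
    exact hij (ha (by linarith))
  apply hS.2 i j l hij hil hjl
  refine ⟨α / β, ?_, ?_⟩
  · unfold ht
    field_simp
    linarith
  · unfold ht
    field_simp
    linarith

open Classical in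
theorem bis_le {n : ℕ} {a y : Fin n → ℝ} (ha : Function.Injective a) :
    {L | IsBisector (pts a y) L}.ncard ≤ (crossings a y (n / 2 - 1)).ncard := by
  have hfin : (crossings a y (n / 2 - 1)).Finite := Set.toFinite _
  rw [Set.ncard_eq_toFinset_card _ (bis_finite (pts a y)), Set.ncard_eq_toFinset_card _ hfin]
  apply card_le_card_of_surjOn
    (fun q : Fin n × Fin n =>
      {x : ℝ × ℝ | Pool.Agent.W296.HL.cr (a q.1, y q.1) (a q.2, y q.2) x = 0})
  intro L hL
  rw [mem_coe, Set.Finite.mem_toFinset] at hL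
  replace hL : IsBisector (pts a y) L := hL
  obtain ⟨α, β, c, hab, hLe, ⟨p, hp, p', hp', hne, hpL, hpL'⟩, h1, h2⟩ := id hL
  rw [mem_pts] at hp hp'
  obtain ⟨i, rfl⟩ := hp
  obtain ⟨j, rfl⟩ := hp'
  have hij : i ≠ j := fun h => hne (by rw [h])
  have hor : ∃ u v : Fin n, u < v ∧ (a u, y u) ∈ L ∧ (a v, y v) ∈ L := by
    rcases lt_trichotomy i j with h | h | h
    · exact ⟨i, j, h, hpL, hpL'⟩
    · exact absurd h hij
    · exact ⟨j, i, h, hpL', hpL⟩
  obtain ⟨u, v, huv, huL, hvL⟩ := hor
  have hauv : a u ≠ a v := fun h => huv.ne (ha h)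
  have hne2 : ((a u, y u) : ℝ × ℝ) ≠ (a v, y v) := fun h => hauv (Prod.mk.inj h).1
  obtain ⟨⟨-, h3, h4⟩, h5⟩ := hv_of_line hL hne2 huL hvL
  obtain ⟨⟨-, h6, h7⟩, -⟩ := hv_of_line hL hne2.symm hvL huL
  refine ⟨(u, v), ?_, h5.symm⟩
  rw [Set.Finite.coe_toFinset]
  refine ⟨huv, hauv, ?_⟩
  simp only
  rw [card_pts ha] at h4 h7
  have hcount : ∀ (C : ℝ × ℝ → Prop), #{x ∈ pts a y | C x} = {l | C (a l, y l)}.ncard := by
    intro C
    have e : ({l | C (a l, y l)} : Set (Fin n)) = ((univ.filter (fun l => C (a l, y l)) :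
        Finset (Fin n)) : Set (Fin n)) := by
      ext l; simp
    rw [e, Set.ncard_coe_finset]
    unfold pts
    rw [filter_image, card_image_of_injective]
    intro i j h
    exact ha (Prod.mk.inj h).1
  rcases lt_or_gt_of_ne hauv with h | h
  · rw [hcount] at h4
    rw [← h4]
    congr 1
    ext l
    simp only [Set.mem_ofPred_eq]
    have h8 := below_iff (y := y) h l
    rw [← Pool.Agent.H189R2.Lev.ht_cr (a := a) (B := y) hauv,
      Pool.Agent.H189R2.Lev.cr_symm a y u v]
    exact h8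
  · rw [hcount] at h7
    rw [← h7]
    congr 1
    ext l
    simp only [Set.mem_ofPred_eq]
    exact below_iff (y := y) h l

/-- Smoothed number of bisectors: `n` points with arbitrary distinct abscissae and independent
ordinates, each of which lies in `[-M, M]` and has a law of density at most `D`.  Almost surely the
points are in general position, and their number of bisectors has a measurable majorant of
expectation at most `8 D M n`; it exceeds `t` with probability at most `8 D M n / t`.  In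
particular, if the ordinates of a point set of the strip `|y| ≤ 1` are moved independently and
uniformly by at most `σ`, the expectation is at most `4 (1 + 1 / σ) n`. -/
theorem result :
    (∀ (n : ℕ) (a : Fin n → ℝ), Function.Injective a → ∀ (ν : Fin n → Measure ℝ)
      [∀ i, IsProbabilityMeasure (ν i)] (D M : ℝ),
      (∀ i, ∀ s t : ℝ, s ≤ t → ν i (Set.Icc s t) ≤ ENNReal.ofReal (D * (t - s))) →
      (∀ i, ∀ᵐ y ∂ν i, |y| ≤ M) →
      (∀ᵐ y ∂Measure.pi ν, #(pts a y) = n ∧ GeneralPosition (pts a y)) ∧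
      (∃ g : (Fin n → ℝ) → ℝ≥0∞, Measurable g ∧
        (∀ y, (({L | IsBisector (pts a y) L}.ncard : ℕ) : ℝ≥0∞) ≤ g y) ∧
        ∫⁻ y, g y ∂Measure.pi ν ≤ ENNReal.ofReal (8 * D * M * n)) ∧
      (∀ t : ℝ≥0∞, t * Measure.pi ν {y | t ≤ (({L | IsBisector (pts a y) L}.ncard : ℕ) : ℝ≥0∞)} ≤
        ENNReal.ofReal (8 * D * M * n))) ∧
    (∀ (n : ℕ) (a b : Fin n → ℝ), Function.Injective a → (∀ i, |b i| ≤ 1) → ∀ σ : ℝ, 0 < σ →
      ∃ g : (Fin n → ℝ) → ℝ≥0∞, Measurable g ∧
        (∀ y, (({L | IsBisector (pts a y) L}.ncard : ℕ) : ℝ≥0∞) ≤ g y) ∧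
        ∫⁻ y, g y ∂Measure.pi
          (fun i => ProbabilityTheory.cond (volume : Measure ℝ) (Set.Icc (b i - σ) (b i + σ))) ≤
          ENNReal.ofReal (4 * (1 + 1 / σ) * n)) := by
  have main : ∀ (n : ℕ) (a : Fin n → ℝ), Function.Injective a → ∀ (ν : Fin n → Measure ℝ)
      [∀ i, IsProbabilityMeasure (ν i)] (D M : ℝ),
      (∀ i, ∀ s t : ℝ, s ≤ t → ν i (Set.Icc s t) ≤ ENNReal.ofReal (D * (t - s))) →
      (∀ i, ∀ᵐ y ∂ν i, |y| ≤ M) →
      (∀ᵐ y ∂Measure.pi ν, #(pts a y) = n ∧ GeneralPosition (pts a y)) ∧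
      (∃ g : (Fin n → ℝ) → ℝ≥0∞, Measurable g ∧
        (∀ y, (({L | IsBisector (pts a y) L}.ncard : ℕ) : ℝ≥0∞) ≤ g y) ∧
        ∫⁻ y, g y ∂Measure.pi ν ≤ ENNReal.ofReal (8 * D * M * n)) ∧
      (∀ t : ℝ≥0∞, t * Measure.pi ν {y | t ≤ (({L | IsBisector (pts a y) L}.ncard : ℕ) : ℝ≥0∞)} ≤
        ENNReal.ofReal (8 * D * M * n)) := by
    intro n a ha ν _ D M hν hM
    obtain ⟨h1, h2, -⟩ := Pool.Agent.Results.MP_a08d0a_co.SmoothedLevel.result n a ν D M hν hM
    have hle : ∀ y, (({L | IsBisector (pts a y) L}.ncard : ℕ) : ℝ≥0∞) ≤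
        ((crossings a y (n / 2 - 1)).ncard : ℝ≥0∞) := fun y => by exact_mod_cast bis_le ha
    have hmeas := measurable_crossings a (n / 2 - 1)
    refine ⟨?_, ⟨_, hmeas, hle, h2 _⟩, ?_⟩
    · filter_upwards [h1] with y hy
      exact ⟨card_pts ha y, gp_pts ha hy⟩
    · intro t
      refine le_trans ?_ ((mul_meas_ge_le_lintegral hmeas t).trans (h2 (n / 2 - 1)))
      gcongr
      exact bis_le ha
  refine ⟨main, ?_⟩
  intro n a b ha hb σ hσ
  have hvol : ∀ i, (volume : Measure ℝ) (Set.Icc (b i - σ) (b i + σ)) = ENNReal.ofReal (2 * σ) := by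
    intro i
    rw [Real.volume_Icc]
    congr 1
    ring
  have h0 : ∀ i, (volume : Measure ℝ) (Set.Icc (b i - σ) (b i + σ)) ≠ 0 := by
    intro i
    rw [hvol]
    simp only [ne_eq, ENNReal.ofReal_eq_zero, not_le]
    positivity
  have hT : ∀ i, (volume : Measure ℝ) (Set.Icc (b i - σ) (b i + σ)) ≠ ∞ := by
    intro i
    rw [hvol]
    exact ENNReal.ofReal_ne_top
  have : ∀ i, IsProbabilityMeasure
      (ProbabilityTheory.cond (volume : Measure ℝ) (Set.Icc (b i - σ) (b i + σ))) :=
    fun i => ProbabilityTheory.cond_isProbabilityMeasure_of_finite (h0 i) (hT i)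
  obtain ⟨-, ⟨g, hg1, hg2, hg3⟩, -⟩ := main n a ha
    (fun i => ProbabilityTheory.cond (volume : Measure ℝ) (Set.Icc (b i - σ) (b i + σ)))
    (1 / (2 * σ)) (1 + σ) (by
      intro i s t hst
      rw [ProbabilityTheory.cond_apply measurableSet_Icc, hvol,
        ← ENNReal.ofReal_inv_of_pos (by positivity), ENNReal.ofReal_mul (by positivity), one_div]
      apply mul_le_mul_right
      refine (measure_mono Set.inter_subset_right).trans ?_
      rw [Real.volume_Icc]) (by
      intro i
      have hmem : ∀ᵐ y ∂ProbabilityTheory.cond (volume : Measure ℝ)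
          (Set.Icc (b i - σ) (b i + σ)), y ∈ Set.Icc (b i - σ) (b i + σ) :=
        ProbabilityTheory.ae_cond_mem measurableSet_Icc
      filter_upwards [hmem] with y hy
      have := abs_le.mp (hb i)
      rw [abs_le]
      constructor
      · linarith [hy.1]
      · linarith [hy.2])
  refine ⟨g, hg1, hg2, hg3.trans (le_of_eq ?_)⟩
  congr 1
  field_simp
  ring

end Pool.Agent.Results.MP_e17eac_co.SmoothedPoints
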